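import Pool.Agent.Q66.IV.IvD
import Pool.Agent.Q66.IV.IvE

/-!
# Ivrii's conjecture for strongly focusing periodic trajectories and for pinched planar tables

Definitions (files `Pool/Agent/H721R2/Ivrii/Def.lean`, `Pool/Agent/Q66/IV/IvDef.lean` and
`Pool/Agent/Q66/IV/IvD.lean`), for a set `Ω` (the table) in `ℝ^d`:

* `LocalDef Ω q F`: near `q` the table is `{F < 0}`, `F` is `C³` near `q`, `F q = 0` and the
  gradient of `F` at `q` is not zero (a regular boundary point);
* `OrbitMod Ω g n p u`: `(p k, u k)` is a billiard trajectory of unit speed which is carried into
  itself by the isometry `g` after `n ≥ 1` bounces; `Orbit Ω n p u` is the case `g = 1`;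
* `FocGe Ω q u β`: the bounce at `q` is focusing with strength at least `β` (in the plane, at a
  boundary point of curvature `κ`, angle `θ` with the tangent: `2 κ / sin θ ≥ β`);
* `side p k`: the length of the side from the bounce `k` to the bounce `k + 1`;
* `res`, `defect`: for positive weights `a k` of the bounces the side `j` gets the length
  `side p j / (a j * a (j + 1))`, and the bounce `k` gets the mass
  `max 0 (a k * ((a (k - 1) + a k) / side p (k - 1) + (a k + a (k + 1)) / side p k - β k * a k))`;
* `Small par n s V`: Lyapunov's inequality `∑ V k * s k * (s n - s k) ≥ s n` fails, or, in the case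
  `par`, it fails on one of the two parts of every subdivision;
* `Orient g n`: the orientation condition; in the plane `g` preserves the orientation, and `g = 1`
  satisfies it for all `n` if `d` is even and for odd `n` if `d` is odd;
* `StrongPer Γ Ω`: the phase points whose trajectory is periodic modulo some `g ∈ Γ` such that for
  some bounce `i`, some weights and some lower bounds `β` of the focusing at the other bounces the
  masses are small;
* `FewWeak Γ Ω`: the ones with strong focusing (mass zero for some positive weights) at all bounces
  of a period except one and, under the orientation condition, another one;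
* `TotDef Γ Ω`: the ones such that (length of a period) times (sum over the bounces `k ≠ i` of the
  positive parts of `2 / side (k - 1) + 2 / side k - β k`) is less than `4`, or less than `16` under
  the orientation condition;
* `Pinched Ω r R`: at every regular boundary point the ball of radius `r` tangent there lies in the
  table, and the table lies in the ball of radius `R` tangent there; `PerUpTo Ω N`: the phase points
  of period at most `N`.

## Outline of the proof

Consider a positive measure set of trajectories periodic modulo `g` in the charts of the starting
files. At a density point all the Jacobi fields are periodic. The ones which vanish at the bounce `i`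
vanish at the bounce `i + n`. For the positions `A k δ` of these fields put
`A' k = (-1) ^ (k + 1) / (a k * a 0) • A k`. Then `A'` is a broken line over the sides of length
`L k / (a k * a (k + 1))` whose kicks are given by the defects: strong focusing, at which the fields
change the sign, becomes a small mass (`IvA.lean`). So Lyapunov's inequality applies to the new
broken line. Under the orientation condition some field vanishes also at a point in between.

For a pinched table let `s k` be the sine of the angle at the bounce `k`. Both sides at the bounce
have lengths between `2 r s k` and `2 R s k`, so `s (k + 1) ≤ (R / r) s k`, `s k ≤ (R / r) s (k + 1)`,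
and the defect for the weights `1` is at most `2 (1 / r - 1 / R) / s k`. Hence the product of the
length and the sum of the defects is at most `8 (∑ k < n, (R / r) ^ k - n)`.
-/

set_option autoImplicit false

open MeasureTheory

namespace Pool.Agent.Results.MP_249f74_an.StrongFocusing

open Pool.Agent.Q66.IV

/-- Let `Γ` be a countable set of isometries of `ℝ^d`, `d ≥ 2`, preserving the set `Ω`. The phase
points whose trajectory is periodic modulo `Γ` (of any period) with strong focusing off one bounce
form a null set of the `(2 d - 2)`-dimensional phase space. In particular almost every periodic
phase point has, for all positive weights, at least two bounces in a period which are not strongly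
focusing, and at least three if the orientation condition holds; and the total defect is bounded
below.

If a planar table is pinched between `r` and `R` and `∑ k < N, (R / r) ^ k < N + 2`, then the
periodic phase points of period at most `N` form a null set. -/
theorem result :
    (∀ d : ℕ, 2 ≤ d → ∀ (Ω : Set (EuclideanSpace ℝ (Fin d)))
      (Γ : Set (EuclideanSpace ℝ (Fin d) ≃ᵃⁱ[ℝ] EuclideanSpace ℝ (Fin d))),
      Γ.Countable → (∀ g ∈ Γ, g ⁻¹' Ω = Ω) →
        μH[(2 * d - 2 : ℕ)] (StrongPer Γ Ω) = 0 ∧ μH[(2 * d - 2 : ℕ)] (FewWeak Γ Ω) = 0 ∧
          μH[(2 * d - 2 : ℕ)] (TotDef Γ Ω) = 0) ∧
      ∀ (Ω : Set (EuclideanSpace ℝ (Fin 2))) (r R : ℝ) (N : ℕ), 0 < r → r ≤ R →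
        ∑ k ∈ Finset.range N, (R / r) ^ k < (N : ℝ) + 2 → Pinched Ω r R →
          μH[2] (PerUpTo Ω N) = 0 := by
  refine ⟨fun d hd Ω Γ hΓ hinv => ?_, pinched_null⟩
  have h1 := strongPer_null (E := EuclideanSpace ℝ (Fin d))
    (by rw [finrank_euclideanSpace_fin]; exact hd) Ω Γ hΓ hinv
  rw [finrank_euclideanSpace_fin] at h1
  exact ⟨h1, measure_mono_null few_sub3 h1, measure_mono_null tot_sub3 h1⟩

end Pool.Agent.Results.MP_249f74_an.StrongFocusing
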