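import Pool.Agent.Q263.IW.Final

/-!
# Ivrii's conjecture and walls in general position

Project IWP of helper263, with the modules of helpers 285 and 195 listed in
`Pool/Agent/Q263/IW/Final.lean` and those of project IVP (helpers 26, 38, 65, 144).

A table is given by walls: `{x | ∀ i, h i x < 0}`, `i : Fin m`, with functions `h i` of class `C²`
(smooth tables with several boundary components, tables with corners, tables with obstacles; `m = 1`
is allowed). `WTraj` (`Pool/Agent/Q263/IW/Def.lean`) is a piece of a billiard trajectory which does
not run into corners, `Movable` is in `Main.lean`, `ReturnWall`, `PerOnce` are in `Cor.lean`,
`MovFam`, `TransFam` in `Final.lean`.

## Outline of the proof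

Fix an oriented line and the sequence of the walls which are met. For walls `h i s` which depend on
`s ∈ S`, the trajectories which start on this line and come back to their first bounce point `p 0`
are given by the parameters and lengths `(s, w) ∈ S × ℝ^(n-1)` which satisfy the `n` equations
`h (ι k) s (p k) = 0`, `0 < k < n`, and `h (ι 0) s (p 0) = 0`, where `p 0` is the intersection of the
first and the last line. The derivative of these equations with respect to the lengths is
triangular. In a direction `c` of `S` which does not change, to the first order, the walls and their
normals at `p k`, `0 < k < n`, only the last equation changes, with the derivative of `h (ι 0)` in
the direction `c` at `p 0`. If this is not zero, the equations are independent (`Core3.lean`), and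
the projection of the solutions to `S` is a null set. The set of all parameters and lines with
such a trajectory is a countable union of closed sets (`Closed3`), so Fubini's theorem applies.
Trajectories which come back along the first line in the opposite direction hit the boundary
perpendicularly, which is a null set for every table. The billiard map preserves null sets (a
trajectory in the table with walls is one for the function `-∏ (-h i)`).
-/

set_option autoImplicit false

open Set MeasureTheory

namespace Pool.Agent.Results.MP_249f74_an.WallsInGeneralPosition

open Q263.IW

/-- Let `d ≥ 2`.

1. Let the walls `h i s` of the table `{x | ∀ i, h i s x < 0}` depend in a `C²` manner on a parameter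
   `s ∈ S`. For almost every `s`, almost no trajectory comes back to one of its bounce points
   `p b = p a`, `a < b`, such that the wall can be moved at this point, to the first order, without
   moving the walls and their normals at the bounce points `p k`, `a < k < b`.
2. Let `f i`, `i < m`, be arbitrary functions of class `C²`. For almost all translations
   `s : Fin m → ℝ^d`, almost no trajectory in the table with the walls `f i (x - s i)` comes back to one
   of its bounce points without having met the wall of this point in the meantime; almost every
   periodic trajectory meets every wall which it meets at least twice in a period. -/
theorem result (d : ℕ) (hd : 2 ≤ d) :
    MovFam (EuclideanSpace ℝ (Fin d)) d ∧ TransFam (EuclideanSpace ℝ (Fin d)) d :=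
  ⟨movFam hd (by simp), transFam hd (by simp)⟩

end Pool.Agent.Results.MP_249f74_an.WallsInGeneralPosition
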